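import Pool.Agent.TH561.PK.Main

/-!
# Sums `∑ r_j(x^q) (x + 1/x)^j` of small span
-/

set_option autoImplicit false

namespace Pool.Agent.Q147.PQ

open Pool.Agent.H891R2.Jones Pool.Agent.TH561 Pool.Agent.TH561.PK Finset LaurentPolynomial

section alg

variable (p : ℕ) [hp : Fact p.Prime]

theorem sub4_C (c : ZMod p) : sub4 (ZMod p) (C c) = C c := by
  rw [sub4_apply]
  unfold C
  show AddMonoidAlgebra.mapDomain _ (AddMonoidAlgebra.single 0 c) = AddMonoidAlgebra.single 0 c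
  rw [AddMonoidAlgebra.mapDomain_single, map_zero]

theorem psi_C (k : ℕ) (c : ZMod p) : psi p k (C c) = C c := by
  rw [psi_apply, sub4_C, ← map_pow, ZMod.pow_card_pow]

theorem psi_T (k : ℕ) (t : ℤ) : psi p k (T t) = T (((p ^ k : ℕ) : ℤ) * (4 * t)) := by
  rw [psi_apply, sub4_T, T_pow]

/-- the substitution of `T^4 + T^{-4}` -/
noncomputable def Th4 : Polynomial (ZMod p) →+* (ZMod p)[T;T⁻¹] :=
  Polynomial.eval₂RingHom C (yy (ZMod p))

theorem Phi_mono (k : ℕ) (t : ℤ) (S : Polynomial (ZMod p)) :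
    Phi p k (Polynomial.C (T t) * S.map C) = T (((p ^ k : ℕ) : ℤ) * (4 * t)) * Th4 p S := by
  unfold Phi Th4
  rw [map_mul, Polynomial.coe_eval₂RingHom, Polynomial.eval₂_C, psi_T, Polynomial.eval₂_map,
    Polynomial.coe_eval₂RingHom]
  congr 2
  ext c
  · simp only [RingHom.comp_apply, psi_C]

theorem invert_Th4 (S : Polynomial (ZMod p)) : invert (Th4 p S) = Th4 p S := by
  unfold Th4
  rw [Polynomial.coe_eval₂RingHom]
  have h := Polynomial.hom_eval₂ S (C : ZMod p →+* (ZMod p)[T;T⁻¹])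
    (invert (R := ZMod p)).toAlgHom.toRingHom (yy (ZMod p))
  have h1 : (invert (R := ZMod p)).toAlgHom.toRingHom (yy (ZMod p)) = yy (ZMod p) := by
    show invert (yy (ZMod p)) = yy (ZMod p)
    unfold yy
    rw [map_add, invert_T, invert_T, neg_neg, add_comm]
  have h2 : ((invert (R := ZMod p)).toAlgHom.toRingHom).comp (C : ZMod p →+* (ZMod p)[T;T⁻¹]) = C := by
    ext c
    show (invert (C c) : (ZMod p)[T;T⁻¹]).coeff _ = _
    rw [invert_C]
  rw [h1, h2] at h
  exact h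

theorem invert_dF' : invert (dF (ZMod p)) = dF (ZMod p) := by
  unfold dF
  rw [map_sub, map_neg, invert_T, invert_T, neg_neg]
  ring

/-- A polynomial of degree `< p^k` for which the sum has span `< 4 p^k` has only monomials with the
same power of `T` as coefficients. -/
theorem struct (k : ℕ) (R : Polynomial (ZMod p)[T;T⁻¹]) (hR : R.natDegree < p ^ k) (lo hi : ℤ)
    (hlen : hi - lo < 4 * (p ^ k : ℕ)) (h : ∀ n, (Phi p k R).coeff n ≠ 0 → lo ≤ n ∧ n ≤ hi) :
    ∃ (t : ℤ) (S : Polynomial (ZMod p)), R = Polynomial.C (T t) * S.map C := by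
  classical
  have hq1 : 1 ≤ p ^ k := Nat.one_le_iff_ne_zero.2 (q_ne p k)
  have hmo : (Mo p k).natDegree = p ^ k := Polynomial.natDegree_X_pow_sub_C
  have hmod : R %ₘ Mo p k = R := by
    rw [Polynomial.modByMonic_eq_self_iff (Mo_monic p k)]
    apply Polynomial.degree_lt_degree
    rw [hmo]
    exact hR
  have hsum := Phi_sum p k R
  rw [hmod] at hsum
  by_cases hR0 : R = 0
  · exact ⟨0, 0, by rw [hR0]; simp⟩
  -- the exponents
  have hc0 : R.coeff R.natDegree ≠ 0 := by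
    intro h0
    exact hR0 (Polynomial.leadingCoeff_eq_zero.1 h0)
  have key : ∀ j, R.coeff j ≠ 0 → ∃ t : ℤ, Top (R.coeff j) t ∧ Bot (R.coeff j) t ∧
      4 * ((p ^ k : ℕ) * t + j : ℤ) ≤ hi ∧ lo ≤ 4 * ((p ^ k : ℕ) * t - j : ℤ) := by
    intro j hj
    have hjq : j < p ^ k := lt_of_le_of_lt (Polynomial.le_natDegree_of_ne_zero hj) hR
    obtain ⟨t, b', ht, hb, hle, ⟨c1, h1, h2⟩, ⟨c2, h3, h4⟩⟩ :=
      rem_span hq1 (fun j => R.coeff j) j hjq hj
    rw [← hsum] at h2 h4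
    have h5 := h c1 h2
    have h6 := h c2 h4
    have h8 : 4 * (((p ^ k : ℕ) : ℤ) * (t - b') + 2 * j) < 4 * (p ^ k : ℕ) := by
      have e1 : 4 * (((p ^ k : ℕ) : ℤ) * (t - b') + 2 * j) =
        4 * (((p ^ k : ℕ) : ℤ) * t + j) - 4 * (((p ^ k : ℕ) : ℤ) * b' - j) := by ring
      rw [e1]
      linarith
    have h9 : t = b' := by
      by_contra hne
      have h10 : 1 ≤ t - b' := by omega
      have h11 : ((p ^ k : ℕ) : ℤ) * 1 ≤ ((p ^ k : ℕ) : ℤ) * (t - b') :=
        mul_le_mul_of_nonneg_left h10 (by positivity)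
      have h12 : (0 : ℤ) ≤ j := by positivity
      linarith
    subst h9
    exact ⟨t, ht, hb, by linarith, by linarith⟩
  obtain ⟨t0, ht0, hb0, hu0, hl0⟩ := key _ hc0
  have key2 : ∀ j, R.coeff j ≠ 0 → Top (R.coeff j) t0 ∧ Bot (R.coeff j) t0 := by
    intro j hj
    obtain ⟨t, ht, hb, hu, hl⟩ := key j hj
    have hq0 : (0 : ℤ) < (p ^ k : ℕ) := by exact_mod_cast hq1
    have hj0 : (0 : ℤ) ≤ j := by positivity
    have hn0 : (0 : ℤ) ≤ R.natDegree := by positivity
    have e1 : ((p ^ k : ℕ) : ℤ) * (t - t0) < ((p ^ k : ℕ) : ℤ) * 1 := by nlinarith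
    have e2 : ((p ^ k : ℕ) : ℤ) * (t0 - t) < ((p ^ k : ℕ) : ℤ) * 1 := by nlinarith
    have e3 := lt_of_mul_lt_mul_left e1 hq0.le
    have e4 := lt_of_mul_lt_mul_left e2 hq0.le
    have e5 : t = t0 := by omega
    subst e5
    exact ⟨ht, hb⟩
  refine ⟨t0, ∑ j ∈ range (R.natDegree + 1), Polynomial.monomial j ((R.coeff j).coeff t0), ?_⟩
  apply Polynomial.ext
  intro n
  rw [Polynomial.coeff_C_mul, Polynomial.coeff_map, Polynomial.finsetSum_coeff]
  simp only [Polynomial.coeff_monomial]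
  rw [Finset.sum_ite_eq']
  by_cases hn : R.coeff n = 0
  · rw [hn]
    split_ifs <;> simp
  · have hmem : n ∈ range (R.natDegree + 1) :=
      Finset.mem_range.2 (Nat.lt_succ_of_le (Polynomial.le_natDegree_of_ne_zero hn))
    rw [if_pos hmem]
    obtain ⟨h1, h2⟩ := key2 n hn
    obtain ⟨c, hc, hc'⟩ := eq_of_top_bot h1 h2
    have h3 : (R.coeff n).coeff t0 = c := by
      rw [hc', coeff_CT, if_pos rfl]
    rw [h3, mul_comm]
    exact hc'

end alg

end Pool.Agent.Q147.PQ
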