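import Pool.Agent.Q147.PQ.Tower

/-!
# The normalised brackets of the covers
-/

set_option autoImplicit false

namespace Pool.Agent.Q147.PQ

open Pool.Agent.H891R2.Jones Pool.Agent.TH561 Pool.Agent.TH561.PK Finset LaurentPolynomial

variable {M l : ℕ}

/-- the lift of the directions `dir` to the `n`-fold cover -/
def lift (n : ℕ) (dir : Fin l × Fin M → Bool) : Fin (n * l) × Fin M → Bool :=
  fun x => dir (x.1.modNat, x.2)

/-- The `n`-fold cyclic cover (around the axis of the annulus) of the diagram `annular w dir`: the word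
`w` is repeated `n` times. -/
def cover (n : ℕ) (w : Fin l → Elem M) (dir : Fin l × Fin M → Bool) : Diagram (Fin (n * l) × Fin M) :=
  PK.annular (pw n w) (lift n dir)

section writhe

/-- the sign of the crossing of `x` if the directions at its lower points are `a` -/
def sgnE (x : Elem M) (a : Fin M → Bool) : ℤ :=
  match x.1 with
  | some true => if a x.rg = !(a x.lf) then -1 else 1
  | some false => if a x.lf = a x.rg then -1 else 1
  | none => 0

theorem level_sign {L : ℕ} (x : Elem M) (t t' : Fin L) (dir : Fin L × Fin M → Bool) :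
    ((levelCrossings x t t' dir).map Crossing.sign).sum = sgnE x (fun j => dir (t, j)) := by
  unfold levelCrossings sgnE
  rcases x.1 with _ | b
  · rfl
  · cases b <;> simp [Crossing.sign]

theorem writhe_annular {L : ℕ} (w : Fin L → Elem M) (dir : Fin L × Fin M → Bool) :
    (PK.annular w dir).writhe = ∑ t, sgnE (w t) (fun j => dir (t, j)) := by
  unfold Diagram.writhe PK.annular
  simp only
  rw [List.map_flatMap, Fin.sum_univ_def]
  generalize List.finRange L = A
  induction A with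
  | nil => rfl
  | cons a A ih =>
    rw [List.flatMap_cons, List.sum_append, ih, List.map_cons, List.sum_cons, level_sign]

theorem sum_modNat (n : ℕ) (G : Fin l → ℤ) : ∑ t : Fin (n * l), G t.modNat = n * ∑ s, G s := by
  have h : ∑ t : Fin (n * l), G t.modNat = ∑ x : Fin n × Fin l, G x.2 :=
    Fintype.sum_equiv finProdFinEquiv.symm _ _ (fun x => rfl)
  rw [h, Fintype.sum_prod_type]
  simp

theorem writhe_cover (n : ℕ) (w : Fin l → Elem M) (dir : Fin l × Fin M → Bool) :
    (cover n w dir).writhe = n * (PK.annular w dir).writhe := by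
  unfold cover
  rw [writhe_annular, writhe_annular, ← sum_modNat n (fun t => sgnE (w t) (fun j => dir (t, j)))]
  rfl

end writhe

section relabel

theorem annular_cast {L : ℕ} (h : L = l) (w : Fin l → Elem M) (dir : Fin l × Fin M → Bool)
    (W : Fin L → Elem M) (d : Fin L × Fin M → Bool) (hW : ∀ i, W i = w (Fin.cast h i))
    (hd : ∀ x, d x = dir (Fin.cast h x.1, x.2)) :
    (PK.annular W d).fPoly = (PK.annular w dir).fPoly := by
  subst h
  have h1 : W = w := funext hW
  have h2 : d = dir := funext hd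
  rw [h1, h2]

theorem cover_one (w : Fin l → Elem M) (dir : Fin l × Fin M → Bool) :
    (cover 1 w dir).fPoly = (PK.annular w dir).fPoly := by
  apply annular_cast (one_mul l) w dir
  · intro i
    unfold pw
    congr 1
    apply Fin.ext
    simp only [Fin.modNat, Fin.val_cast]
    exact Nat.mod_eq_of_lt (by have := i.2; omega)
  · intro x
    unfold lift
    congr 2
    apply Fin.ext
    simp only [Fin.modNat, Fin.val_cast]
    exact Nat.mod_eq_of_lt (by have := x.1.2; omega)

theorem cover_mul (a b : ℕ) (w : Fin l → Elem M) (dir : Fin l × Fin M → Bool) :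
    (cover a (pw b w) (lift b dir)).fPoly = (cover (a * b) w dir).fPoly := by
  apply annular_cast (mul_assoc a b l).symm
  · intro i
    unfold pw
    congr 1
    apply Fin.ext
    simp only [Fin.modNat, Fin.val_cast]
    exact Nat.mod_mod_of_dvd _ (Dvd.intro_left b rfl)
  · intro x
    unfold lift
    congr 2
    apply Fin.ext
    simp only [Fin.modNat, Fin.val_cast]
    exact Nat.mod_mod_of_dvd _ (Dvd.intro_left b rfl)

end relabel

section fpoly

variable (p : ℕ) [hp : Fact p.Prime]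

theorem red_coeff_eq (f : ℤ[T;T⁻¹]) (n : ℤ) : (red p f).coeff n = ((f.coeff n : ℤ) : ZMod p) := by
  unfold red
  rw [AddMonoidAlgebra.coeff_mapRingHom]
  rfl

theorem red_dvd (f : ℤ[T;T⁻¹]) (n : ℤ) : (red p f).coeff n = 0 ↔ (p : ℤ) ∣ f.coeff n := by
  rw [red_coeff_eq, ZMod.intCast_zmod_eq_zero_iff_dvd]

/-- the sign `(-1)^n` modulo `p` -/
noncomputable def sg (n : ℤ) : (ZMod p)[T;T⁻¹] := if Even n then 1 else -1

theorem sg_sq (n : ℤ) : sg p n * sg p n = 1 := by
  unfold sg
  split_ifs <;> simp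

theorem sg_pow (j : ℕ) (n : ℤ) : sg p (((p ^ j : ℕ) : ℤ) * n) = sg p n := by
  rcases hp.out.eq_two_or_odd' with h2 | hodd
  · have hch : CharP (ZMod p)[T;T⁻¹] p := charP_laurent p
    subst h2
    have h : (-1 : (ZMod 2)[T;T⁻¹]) = 1 := by
      have h2z : (2 : (ZMod 2)[T;T⁻¹]) = 0 := CharTwo.two_eq_zero
      calc (-1 : (ZMod 2)[T;T⁻¹]) = 1 - 2 := by ring
        _ = 1 := by rw [h2z, sub_zero]
    unfold sg
    rw [h]
    simp
  · unfold sg
    have h1 : Odd (((p ^ j : ℕ) : ℤ)) := by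
      push_cast
      exact Odd.pow (by exact_mod_cast hodd)
    have h2 : Even (((p ^ j : ℕ) : ℤ) * n) ↔ Even n := by
      rw [Int.even_mul]
      constructor
      · rintro (h | h)
        · exact absurd h (Int.not_even_iff_odd.2 h1)
        · exact h
      · exact fun h => Or.inr h
    simp only [h2]

theorem red_fPoly {P : Type} (D : Diagram P) :
    red p D.fPoly = sg p D.writhe * T (-3 * D.writhe) * red p D.bracket := by
  unfold Diagram.fPoly sg
  rw [map_mul, map_mul, red_T]
  congr 2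
  split_ifs
  · rw [map_one]
  · rw [map_neg, map_one]

theorem red_bracket {P : Type} (D : Diagram P) :
    red p D.bracket = sg p D.writhe * T (3 * D.writhe) * red p D.fPoly := by
  rw [red_fPoly]
  have h1 : (T (3 * D.writhe) * T (-3 * D.writhe) : (ZMod p)[T;T⁻¹]) = 1 := by
    rw [← T_add]
    have : 3 * D.writhe + -3 * D.writhe = 0 := by ring
    rw [this, T_zero]
  calc red p D.bracket = (sg p D.writhe * sg p D.writhe) * (T (3 * D.writhe) * T (-3 * D.writhe)) *
        red p D.bracket := by rw [sg_sq, h1]; ring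
    _ = _ := by ring

theorem sg_mul_ne (n m : ℤ) (f : (ZMod p)[T;T⁻¹]) : (sg p n * f).coeff m ≠ 0 ↔ f.coeff m ≠ 0 := by
  unfold sg
  split_ifs
  · rw [one_mul]
  · rw [neg_one_mul]
    have : (-f).coeff m = -(f.coeff m) := by simp
    rw [this, neg_ne_zero]

theorem bracket_ne {P : Type} (D : Diagram P) (n : ℤ) :
    (red p D.bracket).coeff n ≠ 0 ↔ (red p D.fPoly).coeff (n - 3 * D.writhe) ≠ 0 := by
  rw [red_bracket, mul_assoc, sg_mul_ne, cTm]

theorem fPoly_ne {P : Type} (D : Diagram P) (n : ℤ) :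
    (red p D.fPoly).coeff n ≠ 0 ↔ (red p D.bracket).coeff (n + 3 * D.writhe) ≠ 0 := by
  rw [bracket_ne]
  congr! 3
  ring

theorem dF_const_even (c : ZMod p) (hc : c ≠ 0) (S : Polynomial (ZMod p))
    (h : dF (ZMod p) * C c = Th4 p S) : False := by
  have h1 : Th4 p S = sub4 (ZMod p) (Polynomial.eval₂ C (T 1 + T (-1)) S) := by
    rw [Polynomial.hom_eval₂]
    unfold Th4
    rw [Polynomial.coe_eval₂RingHom]
    have h2 : (sub4 (ZMod p)).comp C = (C : ZMod p →+* (ZMod p)[T;T⁻¹]) := by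
      ext c
      simp only [RingHom.comp_apply, sub4_C]
    rw [h2, map_add, sub4_T, sub4_T]
    rfl
  have h3 : (dF (ZMod p) * C c : (ZMod p)[T;T⁻¹]).coeff 2 = -c := by
    rw [cdF, ← mul_one (C c), ← T_zero, coeff_CT, coeff_CT]
    norm_num
  have h4 : (sub4 (ZMod p) (Polynomial.eval₂ C (T 1 + T (-1)) S)).coeff 2 ≠ 0 := by
    rw [← h1, ← h, h3]
    exact neg_ne_zero.2 hc
  obtain ⟨k, hk, _⟩ := sub4_coeff' _ _ h4
  omega

/-- the general theorem for the covers of order `p^j` -/
theorem cover_tower (hl : 0 < l) (hM : 0 < M) (w : Fin l → Elem M) (dir : Fin l × Fin M → Bool)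
    (k : ℕ) (hMk : M < 2 * p ^ k) (lo hi : ℤ) (hlen : hi - lo < 4 * (((p ^ k : ℕ) : ℤ) - 1))
    (h : ∀ n, (red p (cover (p ^ k) w dir).fPoly).coeff n ≠ 0 → lo ≤ n ∧ n ≤ hi) :
    ∃ (σ : ℤ) (Z : (ZMod p)[T;T⁻¹]), invert Z = Z ∧
      ∀ j : ℕ, red p (cover (p ^ j) w dir).fPoly = T (((p ^ j : ℕ) : ℤ) * σ) * Z := by
  obtain ⟨s, Z, hZ, _, hj⟩ := tower p hl hM w k hMk (lift (p ^ k) dir)
    (lo + 3 * (cover (p ^ k) w dir).writhe) (hi + 3 * (cover (p ^ k) w dir).writhe)
    (by linarith) (by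
      intro n hn
      have h1 := h (n - 3 * (cover (p ^ k) w dir).writhe) (by
        rw [← bracket_ne]
        exact hn)
      constructor <;> linarith [h1.1, h1.2])
  refine ⟨s - 3 * (PK.annular w dir).writhe, sg p (PK.annular w dir).writhe * Z, ?_, fun j => ?_⟩
  · rw [map_mul, hZ]
    congr 1
    unfold sg
    split_ifs
    · rw [map_one]
    · rw [map_neg, map_one]
  · rw [red_fPoly, writhe_cover, sg_pow]
    unfold cover
    rw [hj j (lift (p ^ j) dir)]
    have h1 : (T (-3 * (((p ^ j : ℕ) : ℤ) * (PK.annular w dir).writhe)) * T (((p ^ j : ℕ) : ℤ) * s) :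
        (ZMod p)[T;T⁻¹]) = T (((p ^ j : ℕ) : ℤ) * (s - 3 * (PK.annular w dir).writhe)) := by
      rw [← T_add]
      congr 1
      ring
    rw [← h1]
    ring

theorem invert_coeff {f : (ZMod p)[T;T⁻¹]} (h : invert f = f) (n : ℤ) : f.coeff (-n) = f.coeff n := by
  conv_rhs => rw [← h]
  rw [invert_apply]

theorem unit_center {c : ZMod p} (hc : c ≠ 0) {a : ℤ} (h : invert (C c * T a : (ZMod p)[T;T⁻¹]) = C c * T a) :
    a = 0 := by
  have h1 := invert_coeff p h a
  rw [coeff_CT, coeff_CT, if_pos rfl] at h1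
  by_contra hne
  rw [if_neg (by omega)] at h1
  exact hc h1.symm

/-- brackets which are units modulo `p` -/
theorem unit_tower (hl : 0 < l) (hM : 0 < M) (w : Fin l → Elem M) (k : ℕ) (hMk : M < 2 * p ^ k)
    (hk : 1 ≤ k) (dir : Fin (p ^ k * l) × Fin M → Bool) (c : ZMod p) (hc : c ≠ 0) (a : ℤ)
    (h : red p (PK.annular (pw (p ^ k) w) dir).bracket = C c * T a) :
    M % 2 = 1 ∧ ∃ s : ℤ, ∀ (j : ℕ) (dir' : Fin (p ^ j * l) × Fin M → Bool),
      red p (PK.annular (pw (p ^ j) w) dir').bracket = C c * T (((p ^ j : ℕ) : ℤ) * s) := by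
  have hq2 : 2 ≤ p ^ k := by
    calc 2 ≤ p := hp.out.two_le
      _ = p ^ 1 := (pow_one p).symm
      _ ≤ p ^ k := Nat.pow_le_pow_right hp.out.pos hk
  have hq2' : (2 : ℤ) ≤ ((p ^ k : ℕ) : ℤ) := by exact_mod_cast hq2
  obtain ⟨s, Z, hZ, ⟨S, hS⟩, hj⟩ := tower p hl hM w k hMk dir a a (by linarith) (by
    intro n hn
    rw [h, coeff_CT] at hn
    have : a = n := by
      by_contra hne
      exact hn (if_neg hne)
    constructor <;> linarith)
  have h1 := hj k dir
  rw [h] at h1
  have hTs : (T (-(((p ^ k : ℕ) : ℤ) * s)) * T (((p ^ k : ℕ) : ℤ) * s) : (ZMod p)[T;T⁻¹]) = 1 := by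
    rw [← T_add]; simp
  have h2 : Z = C c * T (a - ((p ^ k : ℕ) : ℤ) * s) := by
    calc Z = (T (-(((p ^ k : ℕ) : ℤ) * s)) * T (((p ^ k : ℕ) : ℤ) * s)) * Z := by rw [hTs, one_mul]
      _ = T (-(((p ^ k : ℕ) : ℤ) * s)) * (T (((p ^ k : ℕ) : ℤ) * s) * Z) := by ring
      _ = C c * (T (-(((p ^ k : ℕ) : ℤ) * s)) * T a) := by rw [← h1]; ring
      _ = _ := by rw [← T_add]; congr 2; ring
  have h3 := unit_center p hc (a := a - ((p ^ k : ℕ) : ℤ) * s) (by rw [← h2]; exact hZ)
  have h4 : Z = C c := by rw [h2, h3, T_zero, mul_one]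
  constructor
  · by_contra hodd
    have h0 : M % 2 = 0 := by omega
    rw [h0, pow_zero, one_mul, h4] at hS
    exact dF_const_even p c hc S hS
  · refine ⟨s, fun j dir' => ?_⟩
    rw [hj j dir', h4]
    ring

end fpoly

end Pool.Agent.Q147.PQ
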