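import Pool.Agent.Q147.PQ.FPoly

/-!
# Quotients of periodic links with small Jones polynomials
-/

set_option autoImplicit false

namespace Pool.Agent.Q147.PQ

open Pool.Agent.H891R2.Jones Pool.Agent.TH561 Pool.Agent.TH561.PK Finset LaurentPolynomial

variable {M l : ℕ}

section main

variable (p : ℕ) [hp : Fact p.Prime]

theorem red_sub_one (f : ℤ[T;T⁻¹]) : (∀ n, (p : ℤ) ∣ (f - 1).coeff n) ↔ red p f = 1 := by
  constructor
  · intro h
    have h1 : red p (f - 1) = 0 := by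
      apply LaurentPolynomial.ext
      intro n
      rw [(red_dvd p (f - 1) n).2 (h n)]
      rfl
    rw [map_sub, map_one, sub_eq_zero] at h1
    exact h1
  · intro h n
    rw [← red_dvd, map_sub, map_one, h, sub_self]
    rfl

theorem unit_iff (f : ℤ[T;T⁻¹]) : (∃ a, ∀ n, ¬ (p : ℤ) ∣ f.coeff n ↔ n = a) ↔
    ∃ (c : ZMod p) (a : ℤ), c ≠ 0 ∧ red p f = C c * T a := by
  constructor
  · rintro ⟨a, ha⟩
    refine ⟨(red p f).coeff a, a, ?_, ?_⟩
    · intro h0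
      exact (ha a).2 rfl ((red_dvd p f a).1 h0)
    · apply LaurentPolynomial.ext
      intro n
      rw [coeff_CT]
      split_ifs with h
      · rw [h]
      · rw [red_dvd]
        by_contra hcon
        exact h ((ha n).1 hcon).symm
  · rintro ⟨c, a, hc, h⟩
    refine ⟨a, fun n => ?_⟩
    rw [← red_dvd, h, coeff_CT]
    constructor
    · intro h1
      by_contra hne
      exact h1 (if_neg (fun h => hne h.symm))
    · rintro rfl
      rw [if_pos rfl]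
      exact hc

theorem unit_bracket {P : Type} (D : Diagram P) :
    (∃ (c : ZMod p) (a : ℤ), c ≠ 0 ∧ red p D.fPoly = C c * T a) ↔
      ∃ (c : ZMod p) (a : ℤ), c ≠ 0 ∧ red p D.bracket = C c * T a := by
  have hs : ∀ (n : ℤ) (c : ZMod p), c ≠ 0 → ∃ c' : ZMod p, c' ≠ 0 ∧ sg p n * C c = C c' := by
    intro n c hc
    unfold sg
    split_ifs
    · exact ⟨c, hc, one_mul _⟩
    · exact ⟨-c, neg_ne_zero.2 hc, by rw [map_neg]; ring⟩
  constructor
  · rintro ⟨c, a, hc, h⟩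
    obtain ⟨c', hc', h'⟩ := hs D.writhe c hc
    refine ⟨c', 3 * D.writhe + a, hc', ?_⟩
    rw [red_bracket, h, ← h', T_add]
    ring
  · rintro ⟨c, a, hc, h⟩
    obtain ⟨c', hc', h'⟩ := hs D.writhe c hc
    refine ⟨c', -3 * D.writhe + a, hc', ?_⟩
    rw [red_fPoly, h, ← h', T_add]
    ring

theorem two_le (hl : 0 < l) (w : Fin l → Elem M) : 2 ≤ M := by
  have := (w ⟨0, hl⟩).2.2
  omega

omit hp in
theorem one_le_k (hl : 0 < l) (w : Fin l → Elem M) (k : ℕ) (hMk : M < 2 * p ^ k) : 1 ≤ k := by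
  have h := two_le hl w
  by_contra hk
  have : k = 0 := by omega
  subst this
  rw [pow_zero] at hMk
  omega

theorem partA (hl : 0 < l) (w : Fin l → Elem M) (dir : Fin l × Fin M → Bool)
    (k : ℕ) (hMk : M < 2 * p ^ k) (lo hi : ℤ) (hlen : hi - lo < 4 * (((p ^ k : ℕ) : ℤ) - 1))
    (h : ∀ n, ¬ (p : ℤ) ∣ (cover (p ^ k) w dir).fPoly.coeff n → lo ≤ n ∧ n ≤ hi) :
    ∃ σ : ℤ, ∀ (i j : ℕ) (n : ℤ),
      (p : ℤ) ∣ (cover (p ^ i) w dir).fPoly.coeff (((p ^ i : ℕ) : ℤ) * σ + n) -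
        (cover (p ^ j) w dir).fPoly.coeff (((p ^ j : ℕ) : ℤ) * σ + n) ∧
      (p : ℤ) ∣ (cover (p ^ i) w dir).fPoly.coeff (((p ^ i : ℕ) : ℤ) * σ + n) -
        (cover (p ^ i) w dir).fPoly.coeff (((p ^ i : ℕ) : ℤ) * σ - n) := by
  have hM : 0 < M := by have := two_le hl w; omega
  obtain ⟨σ, Z, hZ, hj⟩ := cover_tower p hl hM w dir k hMk lo hi hlen (fun n hn => h n (by
    rw [← red_dvd]; exact hn))
  have hc : ∀ (i : ℕ) (n : ℤ),
      (((cover (p ^ i) w dir).fPoly.coeff (((p ^ i : ℕ) : ℤ) * σ + n) : ℤ) : ZMod p) = Z.coeff n := by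
    intro i n
    rw [← red_coeff_eq, hj i, cTm]
    congr 1
    ring
  refine ⟨σ, fun i j n => ⟨?_, ?_⟩⟩
  · rw [← ZMod.intCast_zmod_eq_zero_iff_dvd, Int.cast_sub, hc, hc, sub_self]
  · rw [← ZMod.intCast_zmod_eq_zero_iff_dvd, Int.cast_sub, hc, sub_eq_add_neg (((p ^ i : ℕ) : ℤ) * σ) n,
      hc, invert_coeff p hZ, sub_self]

theorem partC (hl : 0 < l) (w : Fin l → Elem M) (k : ℕ) (hMk : M < 2 * p ^ k)
    (dir : Fin (p ^ k * l) × Fin M → Bool)
    (h : ∃ a, ∀ n, ¬ (p : ℤ) ∣ (PK.annular (pw (p ^ k) w) dir).fPoly.coeff n ↔ n = a) :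
    Odd M ∧ ∀ (j : ℕ) (dir' : Fin (p ^ j * l) × Fin M → Bool),
      ∃ a, ∀ n, ¬ (p : ℤ) ∣ (PK.annular (pw (p ^ j) w) dir').fPoly.coeff n ↔ n = a := by
  have hM : 0 < M := by have := two_le hl w; omega
  rw [unit_iff, unit_bracket] at h
  obtain ⟨c, a, hc, h⟩ := h
  obtain ⟨h1, s, h2⟩ := unit_tower p hl hM w k hMk (one_le_k p hl w k hMk) dir c hc a h
  refine ⟨Nat.odd_iff.2 h1, fun j dir' => ?_⟩
  rw [unit_iff, unit_bracket]
  exact ⟨c, _, hc, h2 j dir'⟩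

theorem partB (hl : 0 < l) (w : Fin l → Elem M) (dir : Fin l × Fin M → Bool)
    (k : ℕ) (hMk : M < 2 * p ^ k) (h : ∀ n, (p : ℤ) ∣ ((cover (p ^ k) w dir).fPoly - 1).coeff n) :
    ∀ (j : ℕ) (n : ℤ), (p : ℤ) ∣ ((cover (p ^ j) w dir).fPoly - 1).coeff n := by
  have hM : 0 < M := by have := two_le hl w; omega
  have hk := one_le_k p hl w k hMk
  have hq2 : 2 ≤ p ^ k := by
    calc 2 ≤ p := hp.out.two_le
      _ = p ^ 1 := (pow_one p).symm
      _ ≤ p ^ k := Nat.pow_le_pow_right hp.out.pos hk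
  have hq2' : (2 : ℤ) ≤ ((p ^ k : ℕ) : ℤ) := by exact_mod_cast hq2
  rw [red_sub_one] at h
  obtain ⟨σ, Z, hZ, hj⟩ := cover_tower p hl hM w dir k hMk 0 0 (by linarith) (fun n hn => by
    rw [h, ← T_zero, T_apply] at hn
    have : (0 : ℤ) = n := by
      by_contra hne
      exact hn (if_neg hne)
    constructor <;> linarith)
  have h1 := hj k
  rw [h] at h1
  have hTs : (T (-(((p ^ k : ℕ) : ℤ) * σ)) * T (((p ^ k : ℕ) : ℤ) * σ) : (ZMod p)[T;T⁻¹]) = 1 := by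
    rw [← T_add]; simp
  have h2 : Z = C 1 * T (-(((p ^ k : ℕ) : ℤ) * σ)) := by
    calc Z = (T (-(((p ^ k : ℕ) : ℤ) * σ)) * T (((p ^ k : ℕ) : ℤ) * σ)) * Z := by rw [hTs, one_mul]
      _ = T (-(((p ^ k : ℕ) : ℤ) * σ)) * (T (((p ^ k : ℕ) : ℤ) * σ) * Z) := by ring
      _ = _ := by rw [← h1, map_one]; ring
  have h3 := unit_center p (c := (1 : ZMod p)) one_ne_zero (a := -(((p ^ k : ℕ) : ℤ) * σ))
    (by rw [← h2]; exact hZ)
  have h4 : σ = 0 := by
    rcases mul_eq_zero.1 (neg_eq_zero.1 h3) with h5 | h5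
    · omega
    · exact h5
  intro j
  rw [red_sub_one, hj j, h2, h4]
  simp

omit hp in
theorem partD (f : ℤ[T;T⁻¹]) (H : ℕ) (hH : ∀ n, |f.coeff n| ≤ H) (hp' : H + 1 < p)
    (h : ∀ n, (p : ℤ) ∣ (f - 1).coeff n) : f = 1 := by
  rw [← sub_eq_zero]
  apply LaurentPolynomial.ext
  intro n
  have h1 : (f - 1).coeff n = f.coeff n - (1 : ℤ[T;T⁻¹]).coeff n := by simp
  have h2 : |(f - 1).coeff n| < p := by
    rw [h1]
    have h3 : |(1 : ℤ[T;T⁻¹]).coeff n| ≤ 1 := by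
      rw [← T_zero, T_apply]
      split_ifs <;> simp
    calc |f.coeff n - (1 : ℤ[T;T⁻¹]).coeff n| ≤ |f.coeff n| + |(1 : ℤ[T;T⁻¹]).coeff n| := abs_sub _ _
      _ ≤ H + 1 := add_le_add (hH n) h3
      _ < p := by exact_mod_cast hp'
  rw [Int.eq_zero_of_abs_lt_dvd (h n) h2]
  rfl

/-- all directions of the cover of order `a * b` -/
theorem pw_mul_any (a b : ℕ) (w : Fin l → Elem M) (dir : Fin (a * b * l) × Fin M → Bool) :
    (PK.annular (pw (a * b) w) dir).fPoly =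
      (PK.annular (pw a (pw b w)) (fun x => dir (Fin.cast (mul_assoc a b l).symm x.1, x.2))).fPoly := by
  symm
  apply annular_cast (mul_assoc a b l).symm
  · intro i
    unfold pw
    congr 1
    apply Fin.ext
    simp only [Fin.modNat, Fin.val_cast]
    exact Nat.mod_mod_of_dvd _ (Dvd.intro_left b rfl)
  · intro x
    rfl

end main

end Pool.Agent.Q147.PQ
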