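import Pool.Agent.TH561.AD.Unit
import Pool.Agent.Q147.PQ.Main

/-!
# Rigidity of the brackets of periodic and freely periodic links with small span
-/

set_option autoImplicit false

namespace Pool.Agent.Q147.PQ

open Pool.Agent.H891R2.Jones Pool.Agent.TH561 Pool.Agent.TH561.PK Pool.Agent.TH561.FP
  Pool.Agent.TH561.AD Finset LaurentPolynomial

section alg

variable (p : ℕ) [hp : Fact p.Prime] {M q : ℕ} (a : ℤ) (u : ℕ → (ZMod p)[T;T⁻¹])

/-- sums of small span -/
theorem alg_small (hq1 : 1 ≤ q) (hq : M * (a.natAbs * M + 1) < 2 * q)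
    (hpar : ∀ n, n % 2 ≠ M % 2 → u n = 0) (ω : ℤ) (hω : ∀ n, Res4 (u n) ω) (lo hi : ℤ)
    (hlen : hi - lo + a.natAbs * (M * (M + 2)) < 4 * q)
    (h : ∀ e, (∑ n ∈ range (M + 1), (u n) ^ q * hn p a n).coeff e ≠ 0 → lo ≤ e ∧ e ≤ hi) :
    ∃ s : ℤ, ∀ n ∈ range (M + 1), ∃ c : ZMod p, u n = C c * T s := by
  classical
  have ht : ∀ s, ∃ t, u s ≠ 0 → Top (u s) t := by
    intro s
    by_cases h : u s = 0
    · exact ⟨0, fun h' => absurd h h'⟩
    · obtain ⟨t, ht⟩ := exists_top (u s) h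
      exact ⟨t, fun _ => ht⟩
  have hb : ∀ s, ∃ t, u s ≠ 0 → Bot (u s) t := by
    intro s
    by_cases h : u s = 0
    · exact ⟨0, fun h' => absurd h h'⟩
    · obtain ⟨t, ht⟩ := exists_bot (u s) h
      exact ⟨t, fun _ => ht⟩
  choose t ht using ht
  choose b hb using hb
  have hq0 : q ≠ 0 := by omega
  have htop : ∀ s, u s ≠ 0 → Top ((u s) ^ q * hn p a s) (q * t s + (a * (s * (s + 2)) + 2 * s)) :=
    fun s hs => ((ht s hs).pow q).mul (hn_top p a s)
  have hbot : ∀ s, u s ≠ 0 → Bot ((u s) ^ q * hn p a s) (q * b s + (a * (s * (s + 2)) - 2 * s)) :=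
    fun s hs => ((hb s hs).pow q).mul (hn_bot p a s)
  have hne : ∀ s, (u s) ^ q * hn p a s ≠ 0 → u s ≠ 0 := by
    intro s h h'
    apply h
    rw [h', zero_pow hq0, zero_mul]
  have hzero : ∀ s, u s = 0 → (u s) ^ q * hn p a s = 0 := by
    intro s h'
    rw [h', zero_pow hq0, zero_mul]
  have hQ : 2 * (M : ℤ) * (a.natAbs * M + 1) < 4 * q := by
    have : (M : ℤ) * (a.natAbs * M + 1) < 2 * q := by exact_mod_cast hq
    linarith
  -- the extreme exponents
  have key : ∀ n0 ∈ range (M + 1), u n0 ≠ 0 → q * t n0 + (a * (n0 * (n0 + 2)) + 2 * n0) ≤ hi ∧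
      lo ≤ q * b n0 + (a * (n0 * (n0 + 2)) - 2 * n0) := by
    intro n0 hn0 hne0
    constructor
    · obtain ⟨c1, h1, h2⟩ := sum_top (range (M+1)) (fun s => (u s) ^ q * hn p a s)
        (fun s => q * t s + (a * (s * (s + 2)) + 2 * s)) (by
          intro s _
          by_cases h : u s = 0
          · left; exact hzero s h
          · right; exact htop s h) (by
          intro i hi j hj hfi hfj hij
          rw [Finset.mem_range] at hi hj
          have h1 : i % 2 = M % 2 := by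
            by_contra h3
            exact hne i hfi (hpar i h3)
          have h2 : j % 2 = M % 2 := by
            by_contra h3
            exact hne j hfj (hpar j h3)
          obtain ⟨k1, hk1⟩ := hω i _ (ht i (hne i hfi)).1
          obtain ⟨k2, hk2⟩ := hω j _ (ht j (hne j hfj)).1
          refine sep a 2 (Or.inl rfl) (4 * q : ℤ) hQ i j (by omega) (by omega)
            (by omega) ⟨k2 - k1, ?_⟩
          have h4 : (q : ℤ) * t i + (a * (i * (i + 2)) + 2 * i) =
            q * t j + (a * (j * (j + 2)) + 2 * j) := hij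
          linear_combination h4 - (q : ℤ) * hk1 + (q : ℤ) * hk2) hn0 ((htop n0 hne0).ne_zero)
      exact le_trans h1 (h c1 h2).2
    · obtain ⟨c1, h1, h2⟩ := sum_bot (range (M+1)) (fun s => (u s) ^ q * hn p a s)
        (fun s => q * b s + (a * (s * (s + 2)) - 2 * s)) (by
          intro s _
          by_cases h : u s = 0
          · left; exact hzero s h
          · right; exact hbot s h) (by
          intro i hi j hj hfi hfj hij
          rw [Finset.mem_range] at hi hj
          have h1 : i % 2 = M % 2 := by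
            by_contra h3
            exact hne i hfi (hpar i h3)
          have h2 : j % 2 = M % 2 := by
            by_contra h3
            exact hne j hfj (hpar j h3)
          obtain ⟨k1, hk1⟩ := hω i _ (hb i (hne i hfi)).coeff
          obtain ⟨k2, hk2⟩ := hω j _ (hb j (hne j hfj)).coeff
          refine sep a (-2) (Or.inr rfl) (4 * q : ℤ) hQ i j (by omega) (by omega)
            (by omega) ⟨k2 - k1, ?_⟩
          have h4 : (q : ℤ) * b i + (a * (i * (i + 2)) - 2 * i) =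
            q * b j + (a * (j * (j + 2)) - 2 * j) := hij
          linear_combination h4 - (q : ℤ) * hk1 + (q : ℤ) * hk2) hn0
            (fun h' => by
              have h3 := (hbot n0 hne0).coeff
              rw [h'] at h3
              exact h3 (by simp))
      exact le_trans (h c1 h2).1 h1
  have hqz : (0 : ℤ) < q := by exact_mod_cast hq1
  -- all exponents coincide
  have hdiff : ∀ i ∈ range (M + 1), ∀ j ∈ range (M + 1), u i ≠ 0 → u j ≠ 0 → t i - b j < 4 := by
    intro i hi' j hj' hui huj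
    obtain ⟨h1, -⟩ := key i hi' hui
    obtain ⟨-, h2⟩ := key j hj' huj
    rw [Finset.mem_range] at hi' hj'
    have hi2 : (i : ℤ) ≤ M := by omega
    have hj2 : (j : ℤ) ≤ M := by omega
    have hi3 : (0 : ℤ) ≤ i := by positivity
    have hj3 : (0 : ℤ) ≤ j := by positivity
    have hM3 : (0 : ℤ) ≤ M := by positivity
    -- |a| bounds
    have h3 : -(a.natAbs * (M * (M + 2)) : ℤ) ≤ a * (i * (i + 2)) - a * (j * (j + 2)) := by
      have h4 : |(i : ℤ) * (i + 2) - j * (j + 2)| ≤ M * (M + 2) := by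
        rw [abs_le]
        have e1 : (i : ℤ) * (i + 2) ≤ M * (M + 2) := by nlinarith
        have e2 : (j : ℤ) * (j + 2) ≤ M * (M + 2) := by nlinarith
        have e3 : (0 : ℤ) ≤ i * (i + 2) := by positivity
        have e4 : (0 : ℤ) ≤ j * (j + 2) := by positivity
        constructor <;> linarith
      have h5 : |a * (i * (i + 2)) - a * (j * (j + 2))| ≤ a.natAbs * (M * (M + 2)) := by
        rw [← mul_sub, abs_mul, Int.abs_eq_natAbs a]
        exact mul_le_mul_of_nonneg_left h4 (by positivity)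
      exact (abs_le.1 h5).1
    have h6 : (q : ℤ) * (t i - b j) < q * 4 := by
      have e1 : (q : ℤ) * (t i - b j) = (q * t i + (a * (i * (i + 2)) + 2 * i)) -
        (q * b j + (a * (j * (j + 2)) - 2 * j)) -
        (a * (i * (i + 2)) - a * (j * (j + 2))) - 2 * i - 2 * j := by ring
      rw [e1]
      linarith
    exact lt_of_mul_lt_mul_left h6 hqz.le
  have hres : ∀ i j, u i ≠ 0 → u j ≠ 0 → (4 : ℤ) ∣ t i - b j := by
    intro i j hui huj
    obtain ⟨k1, hk1⟩ := hω i _ (ht i hui).1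
    obtain ⟨k2, hk2⟩ := hω j _ (hb j huj).coeff
    exact ⟨k1 - k2, by linarith⟩
  have hbt : ∀ i, u i ≠ 0 → b i ≤ t i := fun i hui => (hb i hui).le (ht i hui).1
  by_cases hex : ∃ n0 ∈ range (M + 1), u n0 ≠ 0
  · obtain ⟨n0, hn0, hne0⟩ := hex
    have hself : ∀ i ∈ range (M + 1), u i ≠ 0 → t i = b i := by
      intro i hi' hui
      obtain ⟨k1, hk1⟩ := hres i i hui hui
      have h1 := hdiff i hi' i hi' hui hui
      have h2 := hbt i hui
      omega
    have hsame : ∀ i ∈ range (M + 1), u i ≠ 0 → t i = t n0 := by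
      intro i hi' hui
      obtain ⟨k1, hk1⟩ := hres i n0 hui hne0
      obtain ⟨k2, hk2⟩ := hres n0 i hne0 hui
      have h1 := hdiff i hi' n0 hn0 hui hne0
      have h2 := hdiff n0 hn0 i hi' hne0 hui
      have h3 := hself i hi' hui
      have h4 := hself n0 hn0 hne0
      omega
    refine ⟨t n0, fun n hn' => ?_⟩
    by_cases hun : u n = 0
    · exact ⟨0, by rw [hun]; simp⟩
    · obtain ⟨c, -, hc⟩ := mono_of_top_bot (t := t n) (ht n hun) (by
        rw [hself n hn' hun]
        exact hb n hun)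
      exact ⟨c, by rw [hc, hsame n hn' hun]⟩
  · push Not at hex
    exact ⟨0, fun n hn' => ⟨0, by rw [hex n hn']; simp⟩⟩

end alg

section rigid

variable (p : ℕ) [hp : Fact p.Prime] {M l : ℕ}

theorem form' (hl : 0 < l) (hM : 0 < M) (v : Fin l → Elem M) (j : ℕ) (b : ℤ)
    (dir : Fin (p ^ j * l + b.natAbs * (M * (M - 1))) × Fin M → Bool) :
    dF (ZMod p) * red p (PK.annular (freeWord (p ^ j) v b) dir).bracket =
      T (-(3 * b * M)) * ∑ n ∈ range (M + 1), (rr p M (toW v) n) ^ (p ^ j) * hn p b n := by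
  have h := form p j (p ^ j) rfl hl hM v b dir
  rw [map_mul, red_dl] at h
  exact h

/-- rigidity -/
theorem rigid (hl : 0 < l) (hM : 0 < M) (v : Fin l → Elem M) (k : ℕ) (a : ℤ)
    (hq : M * (a.natAbs * M + 1) < 2 * p ^ k)
    (dir : Fin (p ^ k * l + a.natAbs * (M * (M - 1))) × Fin M → Bool) (lo hi : ℤ)
    (hlen : hi - lo + 4 + a.natAbs * (M * (M + 2)) < 4 * ((p ^ k : ℕ) : ℤ))
    (h : ∀ e, (red p (PK.annular (freeWord (p ^ k) v a) dir).bracket).coeff e ≠ 0 → lo ≤ e ∧ e ≤ hi) :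
    ∃ (s : ℤ) (c : ℕ → ZMod p), (∀ n, n % 2 ≠ M % 2 → c n = 0) ∧
      ∀ (j : ℕ) (b : ℤ) (dir' : Fin (p ^ j * l + b.natAbs * (M * (M - 1))) × Fin M → Bool),
        dF (ZMod p) * red p (PK.annular (freeWord (p ^ j) v b) dir').bracket =
          T (((p ^ j : ℕ) : ℤ) * s - 3 * b * M) * ∑ n ∈ range (M + 1), C (c n) * hn p b n := by
  have hf := form' p hl hM v k a dir
  have hT1 : (T (3 * a * M) * T (-(3 * a * M)) : (ZMod p)[T;T⁻¹]) = 1 := by
    rw [← T_add]; simp
  have hsum : ∑ n ∈ range (M + 1), (rr p M (toW v) n) ^ (p ^ k) * hn p a n =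
      T (3 * a * M) * (dF (ZMod p) * red p (PK.annular (freeWord (p ^ k) v a) dir).bracket) := by
    rw [hf, ← mul_assoc, hT1, one_mul]
  obtain ⟨s, hs⟩ := alg_small p a (rr p M (toW v)) (Nat.pow_pos hp.out.pos) hq
    (fun n h => rr_par p (toW_mem v) n h) (clw (toW v)) (fun n => rr_res4 p (toW_mem v) n)
    (lo - 2 + 3 * a * M) (hi + 2 + 3 * a * M) (by linarith) (by
      intro e he
      rw [hsum, cTm, cdF] at he
      by_cases h1 : (red p (PK.annular (freeWord (p ^ k) v a) dir).bracket).coeff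
          (e - 3 * a * M - 2) = 0
      · have h2 : (red p (PK.annular (freeWord (p ^ k) v a) dir).bracket).coeff
          (e - 3 * a * M + 2) ≠ 0 := by
          intro h3
          rw [h1, h3] at he
          simp at he
        have := h _ h2
        constructor <;> linarith [this.1, this.2]
      · have := h _ h1
        constructor <;> linarith [this.1, this.2])
  choose! c hc using hs
  have hc' : ∀ n, ∃ c' : ZMod p, n ∈ range (M + 1) → (rr p M (toW v) n = C c' * T s ∧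
      (n % 2 ≠ M % 2 → c' = 0)) := by
    intro n
    by_cases hn' : n ∈ range (M + 1)
    · refine ⟨c n, fun _ => ⟨hc n hn', fun hpar => ?_⟩⟩
      have h1 := hc n hn'
      rw [rr_par p (toW_mem v) n hpar] at h1
      have h2 := congrArg (fun f : (ZMod p)[T;T⁻¹] => f.coeff s) h1
      simp only [coeff_CT, if_true] at h2
      exact h2.symm.trans rfl
    · exact ⟨0, fun h => absurd h hn'⟩
  choose c' hc'' using hc'
  refine ⟨s, fun n => if n % 2 = M % 2 then c' n else 0, fun n hn' => if_neg hn', fun j b dir' => ?_⟩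
  have hT : (T (((p ^ j : ℕ) : ℤ) * s - 3 * b * M) : (ZMod p)[T;T⁻¹]) =
      T (-(3 * b * M)) * T (((p ^ j : ℕ) : ℤ) * s) := by
    rw [← T_add]
    congr 1
    ring
  rw [form' p hl hM v j b dir', hT, mul_assoc (T (-(3 * b * M)))]
  congr 1
  rw [Finset.mul_sum]
  refine Finset.sum_congr rfl fun n hn' => ?_
  have h1 : rr p M (toW v) n = C (if n % 2 = M % 2 then c' n else 0) * T s := by
    split_ifs with h2
    · exact (hc'' n hn').1
    · rw [rr_par p (toW_mem v) n h2]; simp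
  rw [h1, mul_pow, ← map_pow, ZMod.pow_card_pow, T_pow]
  ring

/-- the value of a Chebyshev polynomial modulo `p` -/
theorem red_cheb (n : ℤ) : red p (Polynomial.aeval (-T 2 - T (-2) : ℤ[T;T⁻¹]) (Polynomial.Chebyshev.S ℤ n)) =
    Polynomial.aeval (dF (ZMod p)) (Polynomial.Chebyshev.S ℤ n) := by
  have h1 := Polynomial.aeval_algHom_apply (red p).toIntAlgHom (-T 2 - T (-2) : ℤ[T;T⁻¹])
    (Polynomial.Chebyshev.S ℤ n)
  have h2 : (red p).toIntAlgHom (-T 2 - T (-2) : ℤ[T;T⁻¹]) = dF (ZMod p) := red_dl p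
  rw [h2] at h1
  exact h1.symm

/-- rigidity, with integers -/
theorem rigid_int (hl : 0 < l) (hM : 0 < M) (v : Fin l → Elem M) (k : ℕ) (a : ℤ)
    (hq : M * (a.natAbs * M + 1) < 2 * p ^ k)
    (dir : Fin (p ^ k * l + a.natAbs * (M * (M - 1))) × Fin M → Bool) (lo hi : ℤ)
    (hlen : hi - lo + 4 + a.natAbs * (M * (M + 2)) < 4 * ((p ^ k : ℕ) : ℤ))
    (h : ∀ e, ¬ (p : ℤ) ∣ (PK.annular (freeWord (p ^ k) v a) dir).bracket.coeff e → lo ≤ e ∧ e ≤ hi) :
    ∃ (s : ℤ) (c : ℕ → ℤ), (∀ n, n % 2 ≠ M % 2 → c n = 0) ∧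
      ∀ (j : ℕ) (b : ℤ) (dir' : Fin (p ^ j * l + b.natAbs * (M * (M - 1))) × Fin M → Bool) (e : ℤ),
        (p : ℤ) ∣ ((-T 2 - T (-2)) * (PK.annular (freeWord (p ^ j) v b) dir').bracket -
          T (((p ^ j : ℕ) : ℤ) * s - 3 * b * M) * ∑ n ∈ range (M + 1), C (c n) *
            (T (b * (n * (n + 2))) * Polynomial.aeval (-T 2 - T (-2) : ℤ[T;T⁻¹])
              (Polynomial.Chebyshev.S ℤ (n : ℤ)))).coeff e := by
  obtain ⟨s, c, hc, hj⟩ := rigid p hl hM v k a hq dir lo hi hlen (fun e he => h e (by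
    rw [← red_dvd]; exact he))
  refine ⟨s, fun n => ((c n).val : ℤ), fun n hn' => ?_, fun j b dir' e => ?_⟩
  · simp only [hc n hn', ZMod.val_zero, Nat.cast_zero]
  · rw [← red_dvd, map_sub, map_mul, map_mul, red_T, map_sum]
    have h1 : red p (-T 2 - T (-2) : ℤ[T;T⁻¹]) = dF (ZMod p) := red_dl p
    rw [h1, hj j b dir']
    have h2 : ∀ n ∈ range (M + 1), red p (C ((c n).val : ℤ) * (T (b * (n * (n + 2))) *
        Polynomial.aeval (-T 2 - T (-2) : ℤ[T;T⁻¹]) (Polynomial.Chebyshev.S ℤ (n : ℤ)))) =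
        C (c n) * hn p b n := by
      intro n _
      rw [map_mul, map_mul, red_T, red_cheb, red_C]
      unfold hn
      congr 2
      rw [Int.cast_natCast, ZMod.natCast_zmod_val]
    rw [Finset.sum_congr rfl h2, sub_self]
    rfl

/-- units -/
theorem unit_gen (hl : 0 < l) (hM : 0 < M) (v : Fin l → Elem M) (k : ℕ) (hk : 1 ≤ k) (a : ℤ)
    (hq : M * (a.natAbs * M + 1) < 2 * p ^ k)
    (dir : Fin (p ^ k * l + a.natAbs * (M * (M - 1))) × Fin M → Bool) (c : ZMod p) (hc : c ≠ 0) (x : ℤ)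
    (h : red p (PK.annular (freeWord (p ^ k) v a) dir).bracket = C c * T x) :
    M % 2 = 1 ∧ ∃ s : ℤ, ∀ (j : ℕ) (b : ℤ)
      (dir' : Fin (p ^ j * l + b.natAbs * (M * (M - 1))) × Fin M → Bool),
        red p (PK.annular (freeWord (p ^ j) v b) dir').bracket =
          C c * T (((p ^ j : ℕ) : ℤ) * s - 3 * b * M + 3 * b) := by
  have hdF0 : dF (ZMod p) ≠ 0 := top_dF.ne_zero
  have hq2 : 2 ≤ p ^ k := by
    calc 2 ≤ p := hp.out.two_le
      _ = p ^ 1 := (pow_one p).symm
      _ ≤ p ^ k := Nat.pow_le_pow_right hp.out.pos hk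
  have hf := form' p hl hM v k a dir
  have hT1 : (T (3 * a * M) * T (-(3 * a * M)) : (ZMod p)[T;T⁻¹]) = 1 := by
    rw [← T_add]; simp
  have hsum : ∑ n ∈ range (M + 1), (rr p M (toW v) n) ^ (p ^ k) * hn p a n =
      C c * T (3 * a * M + x) * dF (ZMod p) := by
    have h1 : ∑ n ∈ range (M + 1), (rr p M (toW v) n) ^ (p ^ k) * hn p a n =
      T (3 * a * M) * (dF (ZMod p) * red p (PK.annular (freeWord (p ^ k) v a) dir).bracket) := by
      rw [hf, ← mul_assoc, hT1, one_mul]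
    rw [h1, h, T_add]
    ring
  obtain ⟨h2, -, c', m, hc', h3, h4, -⟩ := alg_unit p a (rr p M (toW v)) hq2 hq
    (fun n h => rr_par p (toW_mem v) n h) (clw (toW v)) (fun n => rr_res4 p (toW_mem v) n)
    c hc _ hsum
  rw [ZMod.pow_card_pow] at h4
  subst h4
  have hM2 : M % 2 = 1 := by
    by_contra hodd
    have h5 := rr_par p (toW_mem v) 1 (fun h => hodd h.symm)
    rw [h3] at h5
    have h6 := congrArg (fun f : (ZMod p)[T;T⁻¹] => f.coeff m) h5
    simp only [coeff_CT, if_true] at h6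
    exact hc' h6
  refine ⟨hM2, m, fun j b dir' => ?_⟩
  have hM1 : 1 ∈ range (M + 1) := by rw [Finset.mem_range]; omega
  have h5 := form' p hl hM v j b dir'
  have hj0 : p ^ j ≠ 0 := pow_ne_zero j hp.out.ne_zero
  rw [Finset.sum_eq_single_of_mem 1 hM1 (fun n hn' hn1 => by
    rw [h2 n hn' hn1, zero_pow hj0, zero_mul]), h3, hn_one, mul_pow, ← map_pow,
    ZMod.pow_card_pow, T_pow] at h5
  apply mul_left_cancel₀ hdF0
  rw [h5]
  have hT : (T (((p ^ j : ℕ) : ℤ) * m - 3 * b * M + 3 * b) : (ZMod p)[T;T⁻¹]) =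
      T (-(3 * b * M)) * T (((p ^ j : ℕ) : ℤ) * m) * T (3 * b) := by
    rw [← T_add, ← T_add]
    congr 1
    ring
  rw [hT]
  ring

/-- units, for the normalised bracket -/
theorem unit_gen' (hl : 0 < l) (v : Fin l → Elem M) (k : ℕ) (a : ℤ)
    (hq : M * (a.natAbs * M + 1) < 2 * p ^ k)
    (dir : Fin (p ^ k * l + a.natAbs * (M * (M - 1))) × Fin M → Bool)
    (h : ∃ x, ∀ n, ¬ (p : ℤ) ∣ (PK.annular (freeWord (p ^ k) v a) dir).fPoly.coeff n ↔ n = x) :
    Odd M ∧ ∀ (j : ℕ) (b : ℤ) (dir' : Fin (p ^ j * l + b.natAbs * (M * (M - 1))) × Fin M → Bool),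
      ∃ x, ∀ n, ¬ (p : ℤ) ∣ (PK.annular (freeWord (p ^ j) v b) dir').fPoly.coeff n ↔ n = x := by
  have hM : 0 < M := by have := two_le hl v; omega
  have hMk : M < 2 * p ^ k := by
    refine lt_of_le_of_lt ?_ hq
    calc M = M * 1 := (mul_one M).symm
      _ ≤ M * (a.natAbs * M + 1) := Nat.mul_le_mul_left _ (Nat.le_add_left _ _)
  rw [unit_iff, PQ.unit_bracket] at h
  obtain ⟨c, x, hc, h⟩ := h
  obtain ⟨h1, s, h2⟩ := unit_gen p hl hM v k (one_le_k p hl v k hMk) a hq dir c hc x h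
  refine ⟨Nat.odd_iff.2 h1, fun j b dir' => ?_⟩
  rw [unit_iff, PQ.unit_bracket]
  exact ⟨c, _, hc, h2 j b dir'⟩

end rigid

end Pool.Agent.Q147.PQ
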