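import Pool.Agent.Q147.PQ.Alg

/-!
# The brackets of the cyclic covers of prime power order modulo the prime
-/

set_option autoImplicit false

namespace Pool.Agent.Q147.PQ

open Pool.Agent.H891R2.Jones Pool.Agent.TH561 Pool.Agent.TH561.PK Finset LaurentPolynomial

section tower

variable {M l : ℕ} (p : ℕ) [hp : Fact p.Prime]

theorem bracket_Phi (hl : 0 < l) (hM : 0 < M) (w : Fin l → Elem M) (j : ℕ)
    (dir : Fin (p ^ j * l) × Fin M → Bool) :
    dF (ZMod p) * red p (annular (pw (p ^ j) w) dir).bracket =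
      T (((p ^ j : ℕ) : ℤ) * clw (toW w)) * dF (ZMod p) ^ (M % 2) * Phi p j (Rq p (toW_mem w)) := by
  have hL : 0 < p ^ j * l := Nat.mul_pos (pow_pos hp.out.pos j) hl
  have h3 := bracket_modp hL hM (pw (p ^ j) w) dir p j (toW w) (toW_mem w) (toW_pw (p ^ j) w)
  rw [map_mul, red_dl, ← Phi_Rq p j] at h3
  exact h3

theorem natDegree_Rq {B : List (Option Bool × ℕ)} (hB : ∀ x ∈ B, x.2 + 1 < M) :
    (Rq p hB).natDegree ≤ M / 2 := by
  unfold Rq
  apply Polynomial.natDegree_sum_le_of_forall_le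
  intro i _
  refine le_trans (Polynomial.natDegree_C_mul_le _ _) ?_
  refine le_trans (Polynomial.natDegree_pow_le) ?_
  have h1 : (Polynomial.X + Polynomial.C 2 : Polynomial (ZMod p)[T;T⁻¹]).natDegree ≤ 1 :=
    Polynomial.natDegree_X_add_C _ |>.le
  have h2 := (esn_inn (gen i) (gen_mem hB i)).1
  calc esn M (gen i) / 2 * (Polynomial.X + Polynomial.C 2 : Polynomial (ZMod p)[T;T⁻¹]).natDegree
      ≤ esn M (gen i) / 2 * 1 := Nat.mul_le_mul_left _ h1
    _ ≤ M / 2 := by rw [mul_one]; exact Nat.div_le_div_right h2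

theorem cTm {F : Type*} [Field F] (a n : ℤ) (f : F[T;T⁻¹]) : (T a * f).coeff n = f.coeff (n - a) := by
  unfold T
  rw [AddMonoidAlgebra.coeff_single_mul_eq_mul_coeff (n - a), one_mul]
  intro b _
  omega

theorem cdF {F : Type*} [Field F] (n : ℤ) (f : F[T;T⁻¹]) :
    (dF F * f).coeff n = -f.coeff (n-2) - f.coeff (n+2) := by
  unfold dF
  rw [sub_mul, neg_mul]
  have h1 : (-(T 2 * f) - T (-2) * f).coeff n = -(T 2 * f).coeff n - (T (-2) * f).coeff n := by
    simp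
  rw [h1, cTm, cTm, sub_neg_eq_add]

/-- If the exponents modulo `p` of the bracket of the cover of order `p^k` lie in an interval of length
less than `4(p^k - 1)`, then all covers of order `p^j` have the same bracket modulo `p` up to the
factor `A^(p^j s)`, and it is symmetric. -/
theorem tower (hl : 0 < l) (hM : 0 < M) (w : Fin l → Elem M) (k : ℕ) (hMk : M < 2 * p ^ k)
    (dir : Fin (p ^ k * l) × Fin M → Bool) (lo hi : ℤ) (hlen : hi - lo < 4 * (((p ^ k : ℕ) : ℤ) - 1))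
    (h : ∀ n, (red p (annular (pw (p ^ k) w) dir).bracket).coeff n ≠ 0 → lo ≤ n ∧ n ≤ hi) :
    ∃ (s : ℤ) (Z : (ZMod p)[T;T⁻¹]), invert Z = Z ∧ 
      (∃ S : Polynomial (ZMod p), dF (ZMod p) * Z = dF (ZMod p) ^ (M % 2) * Th4 p S) ∧
      ∀ (j : ℕ) (dir' : Fin (p ^ j * l) × Fin M → Bool),
        red p (annular (pw (p ^ j) w) dir').bracket = T (((p ^ j : ℕ) : ℤ) * s) * Z := by
  have hdF0 : dF (ZMod p) ≠ 0 := top_dF.ne_zero
  set R := Rq p (toW_mem w) with hRdef
  have hb := bracket_Phi p hl hM w k dir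
  set D := red p (annular (pw (p ^ k) w) dir).bracket with hD
  set β := clw (toW w) with hβ
  have hTb : (T (-(((p ^ k : ℕ) : ℤ) * β)) * T (((p ^ k : ℕ) : ℤ) * β) : (ZMod p)[T;T⁻¹]) = 1 := by
    rw [← T_add]; simp
  -- the exponents of `Φ(R)`
  have hPhi : dF (ZMod p) ^ (M % 2) * Phi p k R = T (-(((p ^ k : ℕ) : ℤ) * β)) * (dF (ZMod p) * D) := by
    rw [hb]
    calc dF (ZMod p) ^ (M % 2) * Phi p k R = (T (-(((p ^ k : ℕ) : ℤ) * β)) * T (((p ^ k : ℕ) : ℤ) * β)) *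
          (dF (ZMod p) ^ (M % 2) * Phi p k R) := by rw [hTb, one_mul]
      _ = _ := by ring
  have hexp : ∀ n, (Phi p k R).coeff n ≠ 0 → lo - 2 - (((p ^ k : ℕ) : ℤ) * β) ≤ n ∧
      n ≤ hi + 2 - (((p ^ k : ℕ) : ℤ) * β) := by
    intro n hn
    have hδ : M % 2 = 0 ∨ M % 2 = 1 := Nat.mod_two_eq_zero_or_one M
    rcases hδ with hδ | hδ
    · rw [hδ, pow_zero, one_mul] at hPhi
      rw [hPhi, cTm, cdF] at hn
      by_cases h1 : D.coeff (n - -(((p ^ k : ℕ) : ℤ) * β) - 2) = 0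
      · have h2 : D.coeff (n - -(((p ^ k : ℕ) : ℤ) * β) + 2) ≠ 0 := by
          intro h3
          rw [h1, h3] at hn
          simp at hn
        have := h _ h2
        constructor <;> linarith [this.1, this.2]
      · have := h _ h1
        constructor <;> linarith [this.1, this.2]
    · rw [hδ, pow_one] at hPhi
      have h1 : Phi p k R = T (-(((p ^ k : ℕ) : ℤ) * β)) * D := by
        apply mul_left_cancel₀ hdF0
        rw [hPhi]; ring
      rw [h1, cTm] at hn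
      have := h _ hn
      constructor <;> linarith [this.1, this.2]
  obtain ⟨t, S, hS⟩ := struct p k R (lt_of_le_of_lt (natDegree_Rq p _) (by omega)) _ _
    (by linarith) hexp
  have hall : ∀ (j : ℕ) (dir' : Fin (p ^ j * l) × Fin M → Bool),
      dF (ZMod p) * red p (annular (pw (p ^ j) w) dir').bracket =
        T (((p ^ j : ℕ) : ℤ) * (β + 4 * t)) * (dF (ZMod p) ^ (M % 2) * Th4 p S) := by
    intro j dir'
    rw [bracket_Phi p hl hM w j dir', ← hRdef, hS, Phi_mono, mul_add, T_add]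
    ring
  have hYinv : invert (dF (ZMod p) ^ (M % 2) * Th4 p S) = dF (ZMod p) ^ (M % 2) * Th4 p S := by
    rw [map_mul, map_pow, invert_dF', invert_Th4]
  have hTs : (T (((p ^ k : ℕ) : ℤ) * (β + 4 * t)) * T (-(((p ^ k : ℕ) : ℤ) * (β + 4 * t))) :
      (ZMod p)[T;T⁻¹]) = 1 := by
    rw [← T_add]; simp
  have hZ : dF (ZMod p) * (T (-(((p ^ k : ℕ) : ℤ) * (β + 4 * t))) * D) =
      dF (ZMod p) ^ (M % 2) * Th4 p S := by
    have h1 := hall k dir
    rw [← hD] at h1
    calc dF (ZMod p) * (T (-(((p ^ k : ℕ) : ℤ) * (β + 4 * t))) * D)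
        = T (-(((p ^ k : ℕ) : ℤ) * (β + 4 * t))) * (dF (ZMod p) * D) := by ring
      _ = (T (((p ^ k : ℕ) : ℤ) * (β + 4 * t)) * T (-(((p ^ k : ℕ) : ℤ) * (β + 4 * t)))) *
          (dF (ZMod p) ^ (M % 2) * Th4 p S) := by rw [h1]; ring
      _ = _ := by rw [hTs, one_mul]
  refine ⟨β + 4 * t, T (-(((p ^ k : ℕ) : ℤ) * (β + 4 * t))) * D, ?_, ⟨S, hZ⟩, ?_⟩
  · apply mul_left_cancel₀ hdF0
    have h1 : invert (dF (ZMod p) * (T (-(((p ^ k : ℕ) : ℤ) * (β + 4 * t))) * D)) =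
        dF (ZMod p) * (T (-(((p ^ k : ℕ) : ℤ) * (β + 4 * t))) * D) := by
      rw [hZ, hYinv]
    rw [map_mul, invert_dF'] at h1
    exact h1
  · intro j dir'
    apply mul_left_cancel₀ hdF0
    rw [hall j dir', ← hZ]
    ring

end tower

end Pool.Agent.Q147.PQ
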